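import Mathlib

/-!
Exponential rate from the unfolding inequality, and the squaring iteration.
-/

set_option autoImplicit false

open Finset

namespace SAWF

/-- sum of `1/M^2` over a tail -/
lemma sum_inv_sq_le (c : ℕ) (hc : 2 ≤ c) : ∀ S, ∑ M ∈ Ico c S, (1 / ((M : ℝ)) ^ 2) ≤ 1 / (c - 1 : ℝ) := by
  have hcR : (2 : ℝ) ≤ c := by exact_mod_cast hc
  have key : ∀ S, c ≤ S → ∑ M ∈ Ico c S, (1 / ((M : ℝ)) ^ 2) ≤ 1 / (c - 1 : ℝ) - 1 / (S - 1 : ℝ) := by
    intro S hS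
    induction S, hS using Nat.le_induction with
    | base => simp
    | succ S hS ih =>
      rw [sum_Ico_succ_top hS]
      have hSR : (c : ℝ) ≤ S := by exact_mod_cast hS
      have h1 : 1 / (S : ℝ) ^ 2 ≤ 1 / (S - 1 : ℝ) - 1 / (((S + 1 : ℕ) : ℝ) - 1) := by
        push_cast
        rw [add_sub_cancel_right, div_sub_div _ _ (by linarith) (by linarith),
          div_le_div_iff₀ (by nlinarith) (by nlinarith)]
        nlinarith
      linarith
  intro S
  rcases le_or_gt c S with h | h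
  · have h1 := key S h
    have h2 : 0 ≤ 1 / (S - 1 : ℝ) := by
      apply div_nonneg (by norm_num)
      have hSR : (c : ℝ) ≤ S := by exact_mod_cast h
      linarith
    linarith
  · rw [Ico_eq_empty (by omega), sum_empty]
    apply div_nonneg (by norm_num)
    linarith

/-- one unfolding step -/
lemma rate_step {A : ℕ → ℝ} (hA : ∀ t, 0 ≤ A t) {T S : ℕ} (hT : 15 ≤ T) (hS : 2 * T ≤ S)
    (hunf : A S ≤ (∑ M ∈ Icc (S / 2) S, A M) ^ 2) {g : ℝ} (hg0 : 0 ≤ g)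
    (hg : ∀ M, S / 2 ≤ M → 5 * (M : ℝ) ^ 2 * A M ≤ g) : 5 * (S : ℝ) ^ 2 * A S ≤ g ^ 2 := by
  have hc : 15 ≤ S / 2 := by omega
  have hcR : (15 : ℝ) ≤ ((S / 2 : ℕ) : ℝ) := by exact_mod_cast hc
  have h2c : (S : ℝ) ≤ 2 * ((S / 2 : ℕ) : ℝ) + 1 := by
    have : S ≤ 2 * (S / 2) + 1 := by omega
    exact_mod_cast this
  have hsum : ∑ M ∈ Icc (S / 2) S, A M ≤ g / 5 * (1 / (((S / 2 : ℕ) : ℝ) - 1)) := by
    calc ∑ M ∈ Icc (S / 2) S, A M ≤ ∑ M ∈ Icc (S / 2) S, g / 5 * (1 / (M : ℝ) ^ 2) := by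
          apply sum_le_sum
          intro M hM
          rw [mem_Icc] at hM
          have hM0 : (0 : ℝ) < M := by
            have : 0 < M := by omega
            exact_mod_cast this
          have := hg M hM.1
          rw [mul_one_div, le_div_iff₀ (by positivity)]
          linarith
      _ = g / 5 * ∑ M ∈ Ico (S / 2) (S + 1), (1 / (M : ℝ) ^ 2) := by
          rw [mul_sum]
          apply sum_congr _ fun _ _ => rfl
          ext x; simp only [mem_Icc, mem_Ico]; omega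
      _ ≤ _ := mul_le_mul_of_nonneg_left (sum_inv_sq_le _ (by omega) _) (by positivity)
  have h0 : 0 ≤ ∑ M ∈ Icc (S / 2) S, A M := sum_nonneg fun M _ => hA M
  have hAS : A S ≤ (g / 5 * (1 / (((S / 2 : ℕ) : ℝ) - 1))) ^ 2 :=
    hunf.trans (pow_le_pow_left₀ h0 hsum 2)
  have hc1 : (0 : ℝ) < ((S / 2 : ℕ) : ℝ) - 1 := by linarith
  have hS0 : (0 : ℝ) ≤ S := Nat.cast_nonneg S
  calc 5 * (S : ℝ) ^ 2 * A S ≤ 5 * (S : ℝ) ^ 2 * (g / 5 * (1 / (((S / 2 : ℕ) : ℝ) - 1))) ^ 2 :=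
        mul_le_mul_of_nonneg_left hAS (by positivity)
    _ = g ^ 2 * ((S : ℝ) ^ 2 / (5 * (((S / 2 : ℕ) : ℝ) - 1) ^ 2)) := by
        field_simp
    _ ≤ g ^ 2 * 1 := by
        apply mul_le_mul_of_nonneg_left _ (by positivity)
        rw [div_le_one (by positivity)]
        nlinarith
    _ = g ^ 2 := mul_one _

/-- **exponential rate** -/
theorem rate {A : ℕ → ℝ} (hA : ∀ t, 0 ≤ A t) {T : ℕ} (hT : 15 ≤ T)
    (hunf : ∀ S, 2 * T ≤ S → A S ≤ (∑ M ∈ Icc (S / 2) S, A M) ^ 2)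
    (hst : ∀ S, T ≤ S → 5 * (S : ℝ) ^ 2 * A S ≤ Real.exp (-1)) :
    ∀ S, T ≤ S → A S ≤ Real.exp (-(S / (2 * T))) := by
  have key : ∀ k S : ℕ, 2 ^ k * T ≤ S → 5 * (S : ℝ) ^ 2 * A S ≤ Real.exp (-(2 ^ k : ℝ)) := by
    intro k
    induction k with
    | zero =>
      intro S hS
      have := hst S (by simpa using hS)
      simpa using this
    | succ k ih =>
      intro S hS
      have hS2 : 2 * (2 ^ k * T) ≤ S := by rw [← mul_assoc, ← pow_succ']; exact hS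
      have h1 : T ≤ 2 ^ k * T := Nat.le_mul_of_pos_left T (by positivity)
      have h2 := rate_step hA hT (by omega) (hunf S (by omega)) (g := Real.exp (-(2 ^ k : ℝ)))
        (Real.exp_pos _).le (fun M hM => ih M (by omega))
      rw [← Real.exp_nat_mul] at h2
      have e1 : ((2 : ℕ) : ℝ) * (-(2 ^ k : ℝ)) = -(2 ^ (k + 1) : ℝ) := by push_cast; ring
      rwa [e1] at h2
  intro S hS
  have hT0 : 0 < T := by omega
  have hTR : (15 : ℝ) ≤ T := by exact_mod_cast hT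
  -- choose k
  obtain ⟨k, hk1, hk2⟩ : ∃ k : ℕ, 2 ^ k * T ≤ S ∧ S < 2 ^ (k + 1) * T := by
    refine ⟨Nat.log 2 (S / T), ?_, ?_⟩
    · have h1 : 1 ≤ S / T := (Nat.one_le_div_iff hT0).2 hS
      have h2 := Nat.pow_log_le_self 2 (x := S / T) (by omega)
      exact (Nat.mul_le_mul_right T h2).trans (Nat.div_mul_le_self S T)
    · have h2 := Nat.lt_pow_succ_log_self (b := 2) (by norm_num) (S / T)
      exact (Nat.div_lt_iff_lt_mul hT0).1 h2
  have h1 := key k S hk1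
  have hSR : (15 : ℝ) ≤ S := by exact_mod_cast hT.trans hS
  have h2 : A S ≤ 5 * (S : ℝ) ^ 2 * A S := by
    apply le_mul_of_one_le_left (hA S)
    nlinarith
  refine h2.trans (h1.trans ?_)
  apply Real.exp_le_exp.2
  rw [neg_le_neg_iff, div_le_iff₀ (by linarith)]
  have h3 : (S : ℝ) ≤ 2 ^ (k + 1) * T := by exact_mod_cast hk2.le
  have e1 : (2 : ℝ) ^ (k + 1) * T = 2 ^ k * (2 * T) := by ring
  linarith

/-- the rate holds for all heights by supermultiplicativity -/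
theorem rate_all {A : ℕ → ℝ} (hA : ∀ t, 0 ≤ A t) (hsup : ∀ s t, A s * A t ≤ A (s + t)) {T : ℕ}
    {r : ℝ} (h : ∀ S, T ≤ S → A S ≤ Real.exp (-(r * S))) :
    ∀ S, 1 ≤ S → A S ≤ Real.exp (-(r * S)) := by
  intro S hS
  have hpow : ∀ k : ℕ, 1 ≤ k → (A S) ^ k ≤ A (k * S) := by
    intro k hk
    induction k, hk using Nat.le_induction with
    | base => simp
    | succ k _ ih =>
      calc (A S) ^ (k + 1) = (A S) ^ k * A S := pow_succ _ _
        _ ≤ A (k * S) * A S := mul_le_mul_of_nonneg_right ih (hA S)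
        _ ≤ A (k * S + S) := hsup _ _
        _ = A ((k + 1) * S) := by congr 1; ring
  set k := T + 1 with hk
  have h1 := hpow k (by omega)
  have h2 := h (k * S) (by nlinarith)
  have h3 : Real.exp (-(r * ((k * S : ℕ) : ℝ))) = (Real.exp (-(r * S))) ^ k := by
    rw [← Real.exp_nat_mul]
    congr 1
    push_cast
    ring
  rw [h3] at h2
  exact le_of_pow_le_pow_left₀ (by omega) (Real.exp_pos _).le (h1.trans h2)

/-- **squaring iteration**: `y` at the scale `j` -/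
theorem square_iter {z : ℕ → ℝ} (hz : ∀ j, 0 ≤ z j) {N a0 b A : ℝ} (hN : 1 ≤ N) (ha0 : 0 < a0)
    (hb0 : 0 ≤ b) (hb : b ≤ a0 / 4) (hN2 : 2 ≤ N ^ (a0 / 4)) (hA : a0 ≤ A)
    (h0 : z 0 ≤ N ^ (-a0)) (hstep : ∀ j, z (j + 1) ≤ N ^ b * (z j) ^ 2 + N ^ (-(A + a0 / 4))) :
    ∀ j, z j ≤ N ^ (-(min ((3 / 2) ^ j * a0) A)) := by
  have hN0 : 0 < N := by linarith
  intro j
  induction j with
  | zero =>
    refine h0.trans (Real.rpow_le_rpow_of_exponent_le hN ?_)
    simp only [pow_zero, one_mul]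
    have := min_le_left a0 A
    linarith
  | succ j ih =>
    set m := min ((3 / 2) ^ j * a0) A with hm
    have hpj : (1 : ℝ) ≤ (3 / 2) ^ j := one_le_pow₀ (by norm_num)
    have h1 : (z j) ^ 2 ≤ N ^ (-(2 * m)) := by
      have := pow_le_pow_left₀ (hz j) ih 2
      rw [← Real.rpow_natCast (N ^ (-m)), ← Real.rpow_mul hN0.le] at this
      refine this.trans (le_of_eq ?_)
      congr 1; push_cast; ring
    have h2 : N ^ b * (z j) ^ 2 ≤ N ^ (b - 2 * m) := by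
      calc N ^ b * (z j) ^ 2 ≤ N ^ b * N ^ (-(2 * m)) :=
            mul_le_mul_of_nonneg_left h1 (Real.rpow_pos_of_pos hN0 _).le
        _ = N ^ (b - 2 * m) := by rw [← Real.rpow_add hN0]; congr 1
    set m' := min ((3 / 2) ^ (j + 1) * a0) A with hm'
    have hm'A : m' ≤ A := min_le_right _ _
    have hm'1 : m' ≤ (3 / 2) ^ (j + 1) * a0 := min_le_left _ _
    have h3 : b - 2 * m ≤ -m' - a0 / 4 := by
      rcases le_total ((3 / 2) ^ j * a0) A with hc | hc
      · rw [hm, min_eq_left hc]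
        have e1 : (3 / 2 : ℝ) ^ (j + 1) * a0 = 3 / 2 * ((3 / 2) ^ j * a0) := by ring
        have e2 : a0 ≤ (3 / 2 : ℝ) ^ j * a0 := le_mul_of_one_le_left ha0.le hpj
        linarith
      · rw [hm, min_eq_right hc]
        linarith
    have h4 : N ^ (b - 2 * m) ≤ N ^ (-m' - a0 / 4) := Real.rpow_le_rpow_of_exponent_le hN h3
    have h5 : N ^ (-(A + a0 / 4)) ≤ N ^ (-m' - a0 / 4) :=
      Real.rpow_le_rpow_of_exponent_le hN (by linarith)
    have h6 : N ^ (-m' - a0 / 4) * N ^ (a0 / 4) = N ^ (-m') := by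
      rw [← Real.rpow_add hN0]; congr 1; ring
    have h7 : 0 < N ^ (-m' - a0 / 4) := Real.rpow_pos_of_pos hN0 _
    calc z (j + 1) ≤ N ^ b * (z j) ^ 2 + N ^ (-(A + a0 / 4)) := hstep j
      _ ≤ N ^ (-m' - a0 / 4) * 2 := by linarith
      _ ≤ N ^ (-m' - a0 / 4) * N ^ (a0 / 4) := mul_le_mul_of_nonneg_left hN2 h7.le
      _ = N ^ (-m') := h6

end SAWF
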