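import Mathlib

/-!
Numerical facts about renewal sequences.
-/

set_option autoImplicit false

open Finset

namespace SAWF

/-- `a` is the renewal sequence of the (sub)probability sequence `i` -/
structure Ren (a i : ℕ → ℝ) : Prop where
  i0 : i 0 = 0
  inn : ∀ t, 0 ≤ i t
  a0 : a 0 = 1
  recu : ∀ n, a (n + 1) = ∑ k ∈ range (n + 1), i (k + 1) * a (n - k)

/-- the tail `1 - sum of the first terms` -/
def tl (i : ℕ → ℝ) (k : ℕ) : ℝ := 1 - ∑ j ∈ range (k + 1), i j

/-- partial sums -/
def ps0 (a : ℕ → ℝ) (k : ℕ) : ℝ := ∑ j ∈ range (k + 1), a j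

variable {a i : ℕ → ℝ}

lemma ps0_succ (a : ℕ → ℝ) (k : ℕ) : ps0 a (k + 1) = ps0 a k + a (k + 1) := by
  rw [ps0, sum_range_succ]; rfl

lemma tl_succ (i : ℕ → ℝ) (k : ℕ) : tl i (k + 1) = tl i k - i (k + 1) := by
  rw [tl, sum_range_succ, tl]; ring

lemma Ren.nonneg (h : Ren a i) : ∀ n, 0 ≤ a n := by
  intro n
  induction n using Nat.strong_induction_on with
  | _ n ih =>
    rcases n with _ | n
    · rw [h.a0]; norm_num
    · rw [h.recu]
      exact sum_nonneg fun k hk => mul_nonneg (h.inn _) (ih _ (by rw [mem_range] at hk; omega))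

lemma Ren.tl_anti (h : Ren a i) {k l : ℕ} (hkl : k ≤ l) : tl i l ≤ tl i k := by
  induction l, hkl using Nat.le_induction with
  | base => exact le_rfl
  | succ l _ ih => rw [tl_succ]; have := h.inn (l + 1); linarith

/-- convolution in reflected form -/
lemma Ren.recu' (h : Ren a i) (n : ℕ) :
    a (n + 1) = ∑ j ∈ range (n + 1), a j * i (n + 1 - j) := by
  rw [h.recu, ← sum_range_reflect]
  apply sum_congr rfl
  intro k hk
  rw [mem_range] at hk
  rw [show n + 1 - 1 - k + 1 = n + 1 - k by omega, show n - (n + 1 - 1 - k) = k by omega, mul_comm]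

/-- the renewal identity -/
lemma Ren.ident (h : Ren a i) (n : ℕ) : ∑ j ∈ range (n + 1), a j * tl i (n - j) = 1 := by
  induction n with
  | zero => simp [tl, h.a0, h.i0]
  | succ n ih =>
    rw [sum_range_succ, Nat.sub_self]
    have h1 : ∀ j ∈ range (n + 1), a j * tl i (n + 1 - j) =
        a j * tl i (n - j) - a j * i (n + 1 - j) := by
      intro j hj
      rw [mem_range] at hj
      rw [show n + 1 - j = (n - j) + 1 by omega, tl_succ]
      ring
    rw [sum_congr rfl h1, sum_sub_distrib, ih, ← h.recu' n]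
    simp [tl, h.i0]

/-- the sub probability condition -/
def Sub (i : ℕ → ℝ) : Prop := ∀ k, 0 ≤ tl i k

lemma Ren.ps_nonneg (h : Ren a i) (k : ℕ) : 0 ≤ ps0 a k := sum_nonneg fun j _ => h.nonneg j

lemma Ren.one_le_ps (h : Ren a i) (k : ℕ) : 1 ≤ ps0 a k := by
  have : a 0 ≤ ps0 a k :=
    single_le_sum (f := a) (fun j _ => h.nonneg j) (by simp : (0 : ℕ) ∈ range (k + 1))
  rwa [h.a0] at this

lemma Ren.ps_mono (h : Ren a i) {k l : ℕ} (hkl : k ≤ l) : ps0 a k ≤ ps0 a l :=
  sum_le_sum_of_subset_of_nonneg (range_mono (by omega)) fun j _ _ => h.nonneg j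

lemma Ren.le_one (h : Ren a i) (hs : Sub i) (n : ℕ) : a n ≤ 1 := by
  have h1 := h.ident n
  have h2 : a n * tl i (n - n) ≤ ∑ j ∈ range (n + 1), a j * tl i (n - j) :=
    single_le_sum (f := fun j => a j * tl i (n - j))
      (fun j _ => mul_nonneg (h.nonneg j) (hs _)) (by simp : n ∈ range (n + 1))
  rw [h1, Nat.sub_self] at h2
  simpa [tl, h.i0] using h2

/-- partial sum times tail -/
lemma Ren.ps_tl (h : Ren a i) (k : ℕ) : ps0 a k * tl i k ≤ 1 := by
  rw [← h.ident k, ps0, sum_mul]
  apply sum_le_sum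
  intro j hj
  exact mul_le_mul_of_nonneg_left (h.tl_anti (Nat.sub_le _ _)) (h.nonneg j)

lemma sub_sum_le (hs : Sub i) (k : ℕ) : ∑ j ∈ range (k + 1), i j ≤ 1 := by
  have := hs k
  rw [tl] at this; linarith

/-- a window contains at most as much as the first window -/
lemma Ren.window (h : Ren a i) (hs : Sub i) (k : ℕ) :
    ∀ x, ∑ t ∈ range (k + 1), a (x + t) ≤ ps0 a k := by
  intro x
  induction x using Nat.strong_induction_on with
  | _ x ih =>
    rcases x with _ | x
    · simp [ps0]
    · -- expand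
      have h1 : ∀ t ∈ range (k + 1), a (x + 1 + t) =
          ∑ j ∈ range (x + k + 1), if j ≤ x + t then i (j + 1) * a (x + t - j) else 0 := by
        intro t ht
        rw [mem_range] at ht
        rw [show x + 1 + t = (x + t) + 1 by ring, h.recu, ← sum_filter]
        apply sum_congr
        · ext j; simp only [mem_range, mem_filter]; omega
        · intro j _; rfl
      rw [sum_congr rfl h1, sum_comm]
      have h2 : ∀ j ∈ range (x + k + 1),
          (∑ t ∈ range (k + 1), if j ≤ x + t then i (j + 1) * a (x + t - j) else 0) ≤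
            i (j + 1) * ps0 a k := by
        intro j hj
        rcases le_or_gt j x with hjx | hjx
        · have h3 : ∀ t ∈ range (k + 1),
              (if j ≤ x + t then i (j + 1) * a (x + t - j) else 0) =
                i (j + 1) * a ((x - j) + t) := by
            intro t _
            rw [if_pos (by omega), show x + t - j = (x - j) + t by omega]
          rw [sum_congr rfl h3, ← mul_sum]
          exact mul_le_mul_of_nonneg_left (ih _ (by omega)) (h.inn _)
        · have h4 : (∑ t ∈ range (k + 1), if j ≤ x + t then i (j + 1) * a (x + t - j) else 0) =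
              i (j + 1) * ∑ t ∈ (range (k + 1)).filter (fun t => j ≤ x + t), a (x + t - j) := by
            rw [← sum_filter, mul_sum]
          rw [h4]
          apply mul_le_mul_of_nonneg_left _ (h.inn _)
          rw [ps0]
          have h5 : ∑ t ∈ (range (k + 1)).filter (fun t => j ≤ x + t), a (x + t - j) =
              ∑ t ∈ ((range (k + 1)).filter (fun t => j ≤ x + t)).image (fun t => x + t - j),
                a t := by
            rw [sum_image]
            intro t ht t' ht' heq
            simp only [coe_filter, mem_range, Set.mem_ofPred_eq] at ht ht' heq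
            omega
          rw [h5]
          apply sum_le_sum_of_subset_of_nonneg
          · intro t ht
            simp only [mem_image, mem_filter, mem_range] at ht ⊢
            omega
          · intro t _ _
            exact h.nonneg t
      refine (sum_le_sum h2).trans ?_
      rw [← sum_mul]
      have h6 : ∑ j ∈ range (x + k + 1), i (j + 1) ≤ 1 := by
        have h7 := sub_sum_le hs (x + k + 1)
        rw [sum_range_succ', h.i0, add_zero] at h7
        exact h7
      calc (∑ j ∈ range (x + k + 1), i (j + 1)) * ps0 a k ≤ 1 * ps0 a k :=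
            mul_le_mul_of_nonneg_right h6 (h.ps_nonneg k)
        _ = ps0 a k := one_mul _

lemma Ren.double (h : Ren a i) (hs : Sub i) (k : ℕ) : ps0 a (2 * k + 1) ≤ 2 * ps0 a k := by
  have h1 := h.window hs k (k + 1)
  have h2 : ps0 a (2 * k + 1) = ps0 a k + ∑ t ∈ range (k + 1), a (k + 1 + t) := by
    rw [ps0, ps0, show 2 * k + 1 + 1 = (k + 1) + (k + 1) by ring, sum_range_add]
  linarith

/-- several windows -/
lemma Ren.multi (h : Ren a i) (hs : Sub i) (k m : ℕ) :
    ∑ t ∈ range (m * (k + 1)), a t ≤ m * ps0 a k := by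
  induction m with
  | zero => simp
  | succ m ih =>
    rw [show (m + 1) * (k + 1) = m * (k + 1) + (k + 1) by ring, sum_range_add]
    have := h.window hs k (m * (k + 1))
    push_cast
    linarith

/-- sum of tails -/
lemma Ren.ps_sum_tl (h : Ren a i) (hs : Sub i) (k : ℕ) :
    ps0 a k * ∑ j ∈ range (k + 1), tl i j ≤ 2 * k + 1 := by
  have h1 : ∑ n ∈ range (2 * k + 1), ∑ j ∈ range (n + 1), a j * tl i (n - j) = 2 * k + 1 := by
    rw [sum_congr rfl (fun n _ => h.ident n)]
    simp
  have h2 : ps0 a k * ∑ j ∈ range (k + 1), tl i j =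
      ∑ x ∈ range (k + 1) ×ˢ range (k + 1), a x.1 * tl i x.2 := by
    rw [ps0, sum_mul_sum, sum_product]
  have h3 : ∑ n ∈ range (2 * k + 1), ∑ j ∈ range (n + 1), a j * tl i (n - j) =
      ∑ x ∈ (range (2 * k + 1)).sigma (fun n => range (n + 1)), a x.2 * tl i (x.1 - x.2) := by
    rw [sum_sigma]
  rw [← h1, h3, h2]
  have h4 : ∑ x ∈ range (k + 1) ×ˢ range (k + 1), a x.1 * tl i x.2 =
      ∑ y ∈ (range (k + 1) ×ˢ range (k + 1)).image
        (fun x => (⟨x.1 + x.2, x.1⟩ : Σ _ : ℕ, ℕ)), a y.2 * tl i (y.1 - y.2) := by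
    rw [sum_image]
    · apply sum_congr rfl
      intro x _
      simp
    · intro x _ y _ heq
      simp only [Sigma.mk.injEq, heq_eq_eq] at heq
      ext
      · omega
      · omega
  rw [h4]
  apply sum_le_sum_of_subset_of_nonneg
  · intro y hy
    simp only [mem_image, mem_product, mem_range] at hy
    obtain ⟨x, ⟨hx1, hx2⟩, rfl⟩ := hy
    simp only [mem_sigma, mem_range]
    omega
  · intro y _ _
    exact mul_nonneg (h.nonneg _) (hs _)

lemma sum_mean_le (hs : Sub i) (k : ℕ) :
    ∑ h ∈ range (k + 2), (h : ℝ) * i h ≤ ∑ j ∈ range (k + 1), tl i j := by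
  have key : ∀ m, m ≤ k + 1 →
      ∑ h ∈ range (m + 1), (h : ℝ) * i h + (m : ℝ) * tl i m ≤ ∑ j ∈ range m, tl i j := by
    intro m
    induction m with
    | zero => intro _; simp
    | succ m ih =>
      intro hm
      have h1 := ih (by omega)
      have e1 : ∑ h ∈ range (m + 1 + 1), (h : ℝ) * i h =
          ∑ h ∈ range (m + 1), (h : ℝ) * i h + ((m + 1 : ℕ) : ℝ) * i (m + 1) :=
        sum_range_succ _ _
      have e2 : ∑ j ∈ range (m + 1), tl i j = ∑ j ∈ range m, tl i j + tl i m :=
        sum_range_succ _ _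
      rw [e1, e2, tl_succ]
      push_cast
      linarith
  have h1 := key (k + 1) le_rfl
  have h2 : 0 ≤ ((k + 1 : ℕ) : ℝ) * tl i (k + 1) := mul_nonneg (Nat.cast_nonneg _) (hs _)
  linarith

/-- truncated mean -/
lemma Ren.mean (h : Ren a i) (hs : Sub i) (k : ℕ) :
    ps0 a k * ∑ t ∈ range (k + 2), (t : ℝ) * i t ≤ 2 * k + 1 :=
  (mul_le_mul_of_nonneg_left (sum_mean_le hs k) (h.ps_nonneg k)).trans (h.ps_sum_tl hs k)

end SAWF
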