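import Pool.Agent.SAWF.Renew

/-!
Numerical facts about renewal sequences, second part: exponential tilt, total mass, truncation,
few giants, first passage.
-/

set_option autoImplicit false

open Finset

namespace SAWF

variable {a i : ℕ → ℝ}

/-! ### existence and uniqueness -/

/-- the renewal sequence of `i` -/
noncomputable def mkRen (i : ℕ → ℝ) : ℕ → ℝ
  | 0 => 1
  | n + 1 => ∑ k : Fin (n + 1), i ((k : ℕ) + 1) * mkRen i (n - (k : ℕ))

lemma mkRen_ren (h0 : i 0 = 0) (hi : ∀ t, 0 ≤ i t) : Ren (mkRen i) i := by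
  refine ⟨h0, hi, by rw [mkRen], ?_⟩
  intro n
  rw [mkRen, ← Fin.sum_univ_eq_sum_range (fun k => i (k + 1) * mkRen i (n - k)) (n + 1)]

lemma Ren.unique {a b : ℕ → ℝ} (h : Ren a i) (h' : Ren b i) : ∀ n, a n = b n := by
  intro n
  induction n using Nat.strong_induction_on with
  | _ n ih =>
    rcases n with _ | n
    · rw [h.a0, h'.a0]
    · rw [h.recu, h'.recu]
      apply sum_congr rfl
      intro k hk
      rw [mem_range] at hk
      rw [ih _ (by omega)]

/-- locality: the renewal sequence up to `n` depends only on `i` up to `n` -/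
lemma Ren.congr {b i' : ℕ → ℝ} (h : Ren a i) (h' : Ren b i') {m : ℕ}
    (hii : ∀ t ≤ m, i t = i' t) : ∀ n ≤ m, a n = b n := by
  intro n
  induction n using Nat.strong_induction_on with
  | _ n ih =>
    intro hn
    rcases n with _ | n
    · rw [h.a0, h'.a0]
    · rw [h.recu, h'.recu]
      apply sum_congr rfl
      intro k hk
      rw [mem_range] at hk
      rw [ih _ (by omega) (by omega), hii _ (by omega)]

lemma Ren.mono {b i' : ℕ → ℝ} (h : Ren a i) (h' : Ren b i')
    (hii : ∀ t, i t ≤ i' t) : ∀ n, a n ≤ b n := by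
  intro n
  induction n using Nat.strong_induction_on with
  | _ n ih =>
    rcases n with _ | n
    · rw [h.a0, h'.a0]
    · rw [h.recu, h'.recu]
      apply sum_le_sum
      intro k hk
      rw [mem_range] at hk
      exact mul_le_mul (hii _) (ih _ (by omega)) (h.nonneg _) (h'.inn _)

/-! ### tilt and total mass -/

lemma Ren.tilt (h : Ren a i) (θ : ℝ) :
    Ren (fun t => a t * Real.exp (θ * t)) (fun t => i t * Real.exp (θ * t)) := by
  refine ⟨by simp [h.i0], fun t => mul_nonneg (h.inn t) (Real.exp_pos _).le, by simp [h.a0], ?_⟩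
  intro n
  rw [h.recu, sum_mul]
  apply sum_congr rfl
  intro k hk
  rw [mem_range] at hk
  have h1 : ((n - k : ℕ) : ℝ) = (n : ℝ) - k := by rw [Nat.cast_sub (by omega)]
  have h2 : Real.exp (θ * ((n + 1 : ℕ) : ℝ)) =
      Real.exp (θ * ((k + 1 : ℕ) : ℝ)) * Real.exp (θ * ((n - k : ℕ) : ℝ)) := by
    rw [← Real.exp_add]
    congr 1
    rw [h1]
    push_cast
    ring
  rw [h2]
  ring

lemma sub_of_le {D : ℝ} (hD : 0 ≤ D) (hi : ∀ n, ∑ t ∈ range n, i t ≤ 1 - D) : Sub i := by
  intro k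
  have := hi (k + 1)
  rw [tl]; linarith

/-- total mass -/
lemma Ren.total (h : Ren a i) {D : ℝ} (hD : 0 < D) (hi : ∀ n, ∑ t ∈ range n, i t ≤ 1 - D) (n : ℕ) :
    ∑ t ∈ range n, a t ≤ 1 / D := by
  rcases n with _ | n
  · simp only [range_zero, sum_empty]; positivity
  · have h1 := h.ps_tl n
    have h2 : D ≤ tl i n := by
      have := hi (n + 1)
      rw [tl]; linarith
    rw [le_div_iff₀ hD]
    exact (mul_le_mul_of_nonneg_left h2 (h.ps_nonneg n)).trans h1

lemma Ren.total_exp (h : Ren a i) {θ D : ℝ} (hD : 0 < D)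
    (hi : ∀ n, ∑ t ∈ range n, i t * Real.exp (θ * t) ≤ 1 - D) (n : ℕ) :
    ∑ t ∈ range n, a t * Real.exp (θ * t) ≤ 1 / D :=
  (h.tilt θ).total hD hi n

/-- exponential decay from the tilted total -/
lemma Ren.tail_exp (h : Ren a i) {θ D : ℝ} (hθ : 0 ≤ θ) (hD : 0 < D)
    (hi : ∀ n, ∑ t ∈ range n, i t * Real.exp (θ * t) ≤ 1 - D) (H n : ℕ) :
    ∑ t ∈ Ico H n, a t ≤ 1 / D * Real.exp (-(θ * H)) := by
  have h1 := h.total_exp hD hi n
  have h2 : ∑ t ∈ Ico H n, a t * Real.exp (θ * H) ≤ ∑ t ∈ range n, a t * Real.exp (θ * t) := by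
    calc ∑ t ∈ Ico H n, a t * Real.exp (θ * H) ≤ ∑ t ∈ Ico H n, a t * Real.exp (θ * t) := by
          apply sum_le_sum
          intro t ht
          rw [mem_Ico] at ht
          apply mul_le_mul_of_nonneg_left _ (h.nonneg t)
          apply Real.exp_le_exp.2
          exact mul_le_mul_of_nonneg_left (by exact_mod_cast ht.1) hθ
      _ ≤ _ := by
          apply sum_le_sum_of_subset_of_nonneg
          · intro t ht
            rw [mem_Ico] at ht
            rw [mem_range]; omega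
          · intro t _ _
            exact mul_nonneg (h.nonneg t) (Real.exp_pos _).le
  rw [← sum_mul] at h2
  have h3 : (∑ t ∈ Ico H n, a t) * Real.exp (θ * H) ≤ 1 / D := h2.trans h1
  calc ∑ t ∈ Ico H n, a t = (∑ t ∈ Ico H n, a t) * Real.exp (θ * H) * Real.exp (-(θ * H)) := by
        rw [mul_assoc, ← Real.exp_add]; simp
    _ ≤ 1 / D * Real.exp (-(θ * H)) := mul_le_mul_of_nonneg_right h3 (Real.exp_pos _).le

/-- lower truncation -/
noncomputable def cutoff (v : ℕ) (i : ℕ → ℝ) (t : ℕ) : ℝ := if t < v then i t else 0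

lemma cutoff_nonneg (hi : ∀ t, 0 ≤ i t) (v t : ℕ) : 0 ≤ cutoff v i t := by
  rw [cutoff]; split_ifs
  · exact hi t
  · exact le_rfl

lemma cutoff_le (hi : ∀ t, 0 ≤ i t) (v t : ℕ) : cutoff v i t ≤ i t := by
  rw [cutoff]; split_ifs
  · exact le_rfl
  · exact hi t

lemma exp_le_one_add_two {x : ℝ} (h0 : 0 ≤ x) (h1 : x ≤ 1) : Real.exp x ≤ 1 + 2 * x := by
  have h := Real.abs_exp_sub_one_sub_id_le (x := x) (by rw [abs_of_nonneg h0]; exact h1)
  have h2 := (abs_le.1 h).2
  nlinarith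

/-- **few giants**: below height `v` the tilt `1/(90 v)` costs at most half of the defect -/
theorem few_tilt {u κ : ℕ → ℝ} (hu : Ren u κ) (hs : Sub κ) (hi : ∀ t, 0 ≤ i t)
    (hik : ∀ t, i t ≤ κ t) {D : ℝ} (hD : 0 < D) (hiD : ∀ n, ∑ t ∈ range n, i t ≤ 1 - D)
    {v : ℕ} (hv : 1 ≤ v) (hU : 1 ≤ 5 * D * ps0 u v) (n : ℕ) :
    ∑ t ∈ range n, cutoff v i t * Real.exp (1 / (90 * v) * t) ≤ 1 - D / 2 := by
  have hvR : (1 : ℝ) ≤ v := by exact_mod_cast hv
  have hv0 : (0 : ℝ) < v := by linarith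
  have hUp : 1 ≤ ps0 u v := hu.one_le_ps v
  -- the mean
  have hmean : ∑ t ∈ range v, (t : ℝ) * κ t ≤ (2 * v + 1) * (5 * D) := by
    have h1 := hu.mean hs v
    have h2 : ∑ t ∈ range v, (t : ℝ) * κ t ≤ ∑ t ∈ range (v + 2), (t : ℝ) * κ t :=
      sum_le_sum_of_subset_of_nonneg (range_mono (by omega))
        fun t _ _ => mul_nonneg (Nat.cast_nonneg _) (hu.inn t)
    have h0 : 0 ≤ ∑ t ∈ range v, (t : ℝ) * κ t :=
      sum_nonneg fun t _ => mul_nonneg (Nat.cast_nonneg _) (hu.inn t)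
    have h3 : ps0 u v * ∑ t ∈ range v, (t : ℝ) * κ t ≤ 2 * v + 1 :=
      (mul_le_mul_of_nonneg_left h2 (hu.ps_nonneg v)).trans h1
    calc ∑ t ∈ range v, (t : ℝ) * κ t ≤ (5 * D * ps0 u v) * ∑ t ∈ range v, (t : ℝ) * κ t :=
          le_mul_of_one_le_left h0 hU
      _ = (ps0 u v * ∑ t ∈ range v, (t : ℝ) * κ t) * (5 * D) := by ring
      _ ≤ (2 * v + 1) * (5 * D) := mul_le_mul_of_nonneg_right h3 (by positivity)
  have hterm : ∀ t ∈ range n, cutoff v i t * Real.exp (1 / (90 * v) * t) ≤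
      cutoff v i t + 2 / (90 * v) * ((t : ℝ) * cutoff v κ t) := by
    intro t _
    rw [cutoff, cutoff]
    split_ifs with htv
    · have htR : (t : ℝ) ≤ v := by exact_mod_cast htv.le
      have ht0 : (0 : ℝ) ≤ t := Nat.cast_nonneg t
      have hx0 : 0 ≤ 1 / (90 * (v : ℝ)) * t := by positivity
      have hx1 : 1 / (90 * (v : ℝ)) * t ≤ 1 := by
        rw [one_div, inv_mul_le_iff₀ (by positivity)]
        linarith
      have h1 := exp_le_one_add_two hx0 hx1
      calc i t * Real.exp (1 / (90 * v) * t) ≤ i t * (1 + 2 * (1 / (90 * v) * t)) :=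
            mul_le_mul_of_nonneg_left h1 (hi t)
        _ = i t + 2 / (90 * v) * (t * i t) := by ring
        _ ≤ i t + 2 / (90 * v) * (t * κ t) := by
            have := mul_le_mul_of_nonneg_left (mul_le_mul_of_nonneg_left (hik t) ht0)
              (by positivity : (0 : ℝ) ≤ 2 / (90 * v))
            linarith
    · simp
  refine (sum_le_sum hterm).trans ?_
  rw [sum_add_distrib, ← mul_sum]
  have h4 : ∑ t ∈ range n, cutoff v i t ≤ 1 - D :=
    (sum_le_sum fun t _ => cutoff_le hi v t).trans (hiD n)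
  have h5 : ∑ t ∈ range n, (t : ℝ) * cutoff v κ t ≤ (2 * v + 1) * (5 * D) := by
    refine le_trans ?_ hmean
    have h6 : ∑ t ∈ range n, (t : ℝ) * cutoff v κ t =
        ∑ t ∈ (range n).filter (fun t => t < v), (t : ℝ) * κ t := by
      rw [sum_filter]
      apply sum_congr rfl
      intro t _
      rw [cutoff]
      split_ifs <;> simp
    rw [h6]
    apply sum_le_sum_of_subset_of_nonneg
    · intro t ht
      rw [mem_filter] at ht
      rw [mem_range]; exact ht.2
    · intro t _ _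
      exact mul_nonneg (Nat.cast_nonneg _) (hu.inn t)
  have h7 : 2 / (90 * (v : ℝ)) * ∑ t ∈ range n, (t : ℝ) * cutoff v κ t ≤ D / 3 := by
    calc 2 / (90 * (v : ℝ)) * ∑ t ∈ range n, (t : ℝ) * cutoff v κ t
        ≤ 2 / (90 * (v : ℝ)) * ((2 * v + 1) * (5 * D)) :=
          mul_le_mul_of_nonneg_left h5 (by positivity)
      _ ≤ D / 3 := by
          rw [div_mul_eq_mul_div, div_le_div_iff₀ (by positivity) (by norm_num)]
          nlinarith
  linarith

/-- bridges all of whose pieces are lower than `v`: total mass and tail -/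
theorem few_total {u κ a' : ℕ → ℝ} (hu : Ren u κ) (hs : Sub κ) (hi : ∀ t, 0 ≤ i t)
    (hik : ∀ t, i t ≤ κ t) {D : ℝ} (hD : 0 < D) (hiD : ∀ n, ∑ t ∈ range n, i t ≤ 1 - D)
    {v : ℕ} (hv : 1 ≤ v) (hU : 1 ≤ 5 * D * ps0 u v) (ha' : Ren a' (cutoff v i)) (H n : ℕ) :
    ∑ t ∈ Ico H n, a' t ≤ 2 / D * Real.exp (-(H / (90 * v))) := by
  have h := ha'.tail_exp (θ := 1 / (90 * v)) (D := D / 2) (by positivity) (by positivity)
    (by
      intro n
      have := few_tilt hu hs hi hik hD hiD hv hU n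
      linarith) H n
  have e1 : 1 / (D / 2) = 2 / D := by field_simp
  have e2 : 1 / (90 * (v : ℝ)) * H = H / (90 * v) := by ring
  rw [e1, e2] at h
  exact h

/-- convolution bound -/
lemma conv_le {f g : ℕ → ℝ} (hf : ∀ t, 0 ≤ f t) (hg : ∀ t, 0 ≤ g t) (m : ℕ) :
    ∑ k ∈ range m, ∑ j ∈ range (k + 1), f (j + 1) * g (k - j) ≤
      (∑ t ∈ range m, f (t + 1)) * ∑ t ∈ range m, g t := by
  have h1 : ∑ k ∈ range m, ∑ j ∈ range (k + 1), f (j + 1) * g (k - j) =
      ∑ j ∈ range m, ∑ k ∈ Ico j m, f (j + 1) * g (k - j) := by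
    apply sum_comm'
    intro k j
    simp only [mem_range, mem_Ico]
    omega
  rw [h1, sum_mul]
  apply sum_le_sum
  intro j _
  rw [← mul_sum, sum_Ico_eq_sum_range]
  apply mul_le_mul_of_nonneg_left _ (hf _)
  have h2 : ∑ k ∈ range (m - j), g (j + k - j) = ∑ k ∈ range (m - j), g k := by
    apply sum_congr rfl
    intro k _
    rw [Nat.add_sub_cancel_left]
  rw [h2]
  exact sum_le_sum_of_subset_of_nonneg (range_mono (Nat.sub_le _ _)) fun t _ _ => hg t

/-- bridges with at least one piece of height at least `v` -/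
theorem big_total {a' : ℕ → ℝ} (h : Ren a i) {v : ℕ} (ha' : Ren a' (cutoff v i)) {D J : ℝ}
    (hD : 0 < D) (hiD : ∀ n, ∑ t ∈ range n, i t ≤ 1 - D) (hJ : ∀ n, ∑ t ∈ Ico v n, i t ≤ J)
    (n : ℕ) : ∑ t ∈ range n, (a t - a' t) ≤ J / D ^ 2 := by
  have hJ0 : 0 ≤ J := by simpa using hJ 0
  rcases n with _ | m
  · simp only [range_zero, sum_empty]; positivity
  have hle : ∀ t, a' t ≤ a t := ha'.mono h (cutoff_le h.inn v)
  have hb : ∀ m, a (m + 1) - a' (m + 1) =
      ∑ k ∈ range (m + 1), cutoff v i (k + 1) * (a (m - k) - a' (m - k)) +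
      ∑ k ∈ range (m + 1), (i (k + 1) - cutoff v i (k + 1)) * a (m - k) := by
    intro m
    rw [h.recu, ha'.recu, ← sum_sub_distrib, ← sum_add_distrib]
    apply sum_congr rfl
    intro k _
    ring
  have e1 : ∑ t ∈ range (m + 1), (a t - a' t) =
      ∑ k ∈ range m, ∑ j ∈ range (k + 1), cutoff v i (j + 1) * (a (k - j) - a' (k - j)) +
      ∑ k ∈ range m, ∑ j ∈ range (k + 1), (i (j + 1) - cutoff v i (j + 1)) * a (k - j) := by
    rw [sum_range_succ' (fun t => a t - a' t) m, h.a0, ha'.a0, sub_self, add_zero,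
      ← sum_add_distrib]
    exact sum_congr rfl fun k _ => hb k
  have c1 := conv_le (f := cutoff v i) (g := fun t => a t - a' t) (cutoff_nonneg h.inn v)
    (fun t => sub_nonneg.2 (hle t)) m
  have c2 := conv_le (f := fun t => i t - cutoff v i t) (g := a)
    (fun t => sub_nonneg.2 (cutoff_le h.inn v t)) h.nonneg m
  set B : ℝ := ∑ t ∈ range (m + 1), (a t - a' t) with hB
  have hB' : ∑ t ∈ range m, (a t - a' t) ≤ B :=
    sum_le_sum_of_subset_of_nonneg (range_mono (by omega)) fun t _ _ => sub_nonneg.2 (hle t)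
  have hB0 : 0 ≤ ∑ t ∈ range m, (a t - a' t) := sum_nonneg fun t _ => sub_nonneg.2 (hle t)
  have s1 : ∑ t ∈ range m, cutoff v i (t + 1) ≤ 1 - D := by
    have h3 := hiD (m + 1)
    rw [sum_range_succ', h.i0, add_zero] at h3
    exact (sum_le_sum fun t _ => cutoff_le h.inn v (t + 1)).trans h3
  have s2 : ∑ t ∈ range m, (i (t + 1) - cutoff v i (t + 1)) ≤ J := by
    refine le_trans (le_of_eq ?_) (hJ (m + 1))
    have h3 : ∑ t ∈ range (m + 1), (i t - cutoff v i t) =
        ∑ t ∈ range m, (i (t + 1) - cutoff v i (t + 1)) := by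
      rw [sum_range_succ' (fun t => i t - cutoff v i t) m, h.i0]
      simp [cutoff, h.i0]
    rw [← h3]
    have h4 : Ico v (m + 1) = (range (m + 1)).filter (fun t => ¬ t < v) := by
      ext t; simp only [mem_Ico, mem_filter, mem_range]; omega
    rw [h4, sum_filter]
    apply sum_congr rfl
    intro t _
    rw [cutoff]
    split_ifs <;> simp
  have s0 : 0 ≤ ∑ t ∈ range m, cutoff v i (t + 1) := sum_nonneg fun t _ => cutoff_nonneg h.inn v _
  have s3 : ∑ t ∈ range m, a t ≤ 1 / D := h.total hD hiD m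
  have s4 : 0 ≤ ∑ t ∈ range m, a t := sum_nonneg fun t _ => h.nonneg t
  have hD1 : 0 ≤ 1 - D := s0.trans s1
  have f1 : ∑ k ∈ range m, ∑ j ∈ range (k + 1), cutoff v i (j + 1) * (a (k - j) - a' (k - j)) ≤
      (1 - D) * B := c1.trans (mul_le_mul s1 hB' hB0 hD1)
  have f2 : ∑ k ∈ range m, ∑ j ∈ range (k + 1), (i (j + 1) - cutoff v i (j + 1)) * a (k - j) ≤
      J * (1 / D) := c2.trans (mul_le_mul s2 s3 s4 hJ0)
  have f3 : B ≤ (1 - D) * B + J * (1 / D) := by
    calc B = _ := e1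
      _ ≤ _ := add_le_add f1 f2
  have f4 : D * B ≤ J * (1 / D) := by linarith
  rw [le_div_iff₀ (by positivity)]
  calc B * D ^ 2 = (D * B) * D := by ring
    _ ≤ J * (1 / D) * D := mul_le_mul_of_nonneg_right f4 hD.le
    _ = J := by field_simp

/-- **tail of all bridges**: `UU (2 e^{-H/(90v)} + y(v))` -/
theorem tail_total {u κ : ℕ → ℝ} (hu : Ren u κ) (hs : Sub κ) (h : Ren a i)
    (hik : ∀ t, i t ≤ κ t) {D J : ℝ} (hD : 0 < D) (hiD : ∀ n, ∑ t ∈ range n, i t ≤ 1 - D)
    {v : ℕ} (hv : 1 ≤ v) (hU : 1 ≤ 5 * D * ps0 u v) (hJ : ∀ n, ∑ t ∈ Ico v n, i t ≤ J)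
    (H n : ℕ) :
    ∑ t ∈ Ico H n, a t ≤ 1 / D * (2 * Real.exp (-(H / (90 * v))) + J / D) := by
  have ha' := mkRen_ren (i := cutoff v i) (by simp [cutoff, h.i0]) (cutoff_nonneg h.inn v)
  have h1 := few_total hu hs h.inn hik hD hiD hv hU ha' H n
  have h2 := big_total h ha' hD hiD hJ n
  have hle : ∀ t, mkRen (cutoff v i) t ≤ a t := ha'.mono h (cutoff_le h.inn v)
  have h3 : ∑ t ∈ Ico H n, (a t - mkRen (cutoff v i) t) ≤
      ∑ t ∈ range n, (a t - mkRen (cutoff v i) t) := by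
    apply sum_le_sum_of_subset_of_nonneg
    · intro t ht
      rw [mem_Ico] at ht
      rw [mem_range]; exact ht.2
    · intro t _ _
      exact sub_nonneg.2 (hle t)
  have h4 : ∑ t ∈ Ico H n, a t = ∑ t ∈ Ico H n, mkRen (cutoff v i) t +
      ∑ t ∈ Ico H n, (a t - mkRen (cutoff v i) t) := by
    rw [← sum_add_distrib]
    apply sum_congr rfl
    intro t _
    ring
  rw [h4]
  have e1 : 1 / D * (2 * Real.exp (-(H / (90 * v))) + J / D) =
      2 / D * Real.exp (-(H / (90 * v))) + J / D ^ 2 := by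
    field_simp
  rw [e1]
  linarith

/-! ### upper bound for the total (T3) -/

/-- `UU <= 5 U(M)` when the tilt `1/M` is subcritical -/
theorem upper_total {u : ℕ → ℝ} (h : Ren a i) (hau : ∀ t, a t ≤ u t) {M : ℝ} (hM : 1 ≤ M)
    (hi : Sub (fun t => i t * Real.exp (1 / M * t))) (n : ℕ) :
    ∑ t ∈ range n, a t ≤ 5 * ps0 u ⌊M⌋₊ := by
  have hM0 : 0 < M := by linarith
  set k := ⌊M⌋₊ with hk
  have hkM : (k : ℝ) ≤ M := Nat.floor_le hM0.le
  have hMk : M < k + 1 := Nat.lt_floor_add_one M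
  have hb := h.tilt (1 / M)
  -- first window
  have hU : ps0 (fun t => a t * Real.exp (1 / M * t)) k ≤ Real.exp 1 * ps0 u k := by
    rw [ps0, ps0, mul_sum]
    apply sum_le_sum
    intro t ht
    rw [mem_range] at ht
    have h1 : (t : ℝ) ≤ M := le_trans (by exact_mod_cast (by omega : t ≤ k)) hkM
    have h2 : Real.exp (1 / M * t) ≤ Real.exp 1 := by
      apply Real.exp_le_exp.2
      rw [one_div, inv_mul_le_iff₀ hM0]; linarith
    calc a t * Real.exp (1 / M * t) ≤ u t * Real.exp 1 :=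
          mul_le_mul (hau t) h2 (Real.exp_pos _).le ((h.nonneg t).trans (hau t))
      _ = Real.exp 1 * u t := mul_comm _ _
  have hU0 : 0 ≤ ps0 u k := sum_nonneg fun j _ => (h.nonneg j).trans (hau j)
  have hwin : ∀ m, ∑ t ∈ range (m * (k + 1)), a t ≤
      (∑ j ∈ range m, (Real.exp (-1)) ^ j) * (Real.exp 1 * ps0 u k) := by
    intro m
    induction m with
    | zero => simp
    | succ m ih =>
      rw [show (m + 1) * (k + 1) = m * (k + 1) + (k + 1) by ring, sum_range_add,
        sum_range_succ _ m, add_mul]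
      have h3 : ∑ t ∈ range (k + 1), a (m * (k + 1) + t) ≤
          (Real.exp (-1)) ^ m * (Real.exp 1 * ps0 u k) := by
        have h4 := hb.window hi k (m * (k + 1))
        have h5 : ∑ t ∈ range (k + 1), a (m * (k + 1) + t) ≤ (Real.exp (-1)) ^ m *
            ∑ t ∈ range (k + 1), a (m * (k + 1) + t) *
              Real.exp (1 / M * ((m * (k + 1) + t : ℕ) : ℝ)) := by
          rw [mul_sum]
          apply sum_le_sum
          intro t _
          have h6 : 1 ≤ (Real.exp (-1)) ^ m * Real.exp (1 / M * ((m * (k + 1) + t : ℕ) : ℝ)) := by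
            rw [← Real.exp_nat_mul, ← Real.exp_add]
            apply Real.one_le_exp
            have h7 : (m : ℝ) ≤ 1 / M * ((m * (k + 1) + t : ℕ) : ℝ) := by
              rw [one_div, le_inv_mul_iff₀ hM0]
              push_cast
              have h8 : M * m ≤ (k + 1) * m := mul_le_mul_of_nonneg_right hMk.le (Nat.cast_nonneg m)
              have h9 : (0 : ℝ) ≤ t := Nat.cast_nonneg t
              linarith
            linarith
          calc a (m * (k + 1) + t) ≤ a (m * (k + 1) + t) *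
                ((Real.exp (-1)) ^ m * Real.exp (1 / M * ((m * (k + 1) + t : ℕ) : ℝ))) :=
                le_mul_of_one_le_right (h.nonneg _) h6
            _ = _ := by ring
        refine h5.trans ?_
        apply mul_le_mul_of_nonneg_left _ (by positivity)
        exact h4.trans hU
      linarith
  have hgeo : ∀ m, ∑ j ∈ range m, (Real.exp (-1)) ^ j ≤ 1 / (1 - Real.exp (-1)) := by
    intro m
    have h1 : Real.exp (-1) < 1 := by
      rw [Real.exp_lt_one_iff]; norm_num
    rw [geom_sum_eq h1.ne, ← neg_div_neg_eq]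
    apply div_le_div₀ (by norm_num) _ (by linarith) (by linarith)
    have : 0 ≤ Real.exp (-1) ^ m := by positivity
    linarith
  have hconst : 1 / (1 - Real.exp (-1)) * Real.exp 1 ≤ 5 := by
    have h1 := Real.exp_one_gt_d9
    have h2 := Real.exp_one_lt_d9
    have h3 : Real.exp (-1) = 1 / Real.exp 1 := by rw [Real.exp_neg]; ring
    have h4 : 0 < Real.exp 1 := Real.exp_pos 1
    rw [h3]
    have h5 : 1 - 1 / Real.exp 1 = (Real.exp 1 - 1) / Real.exp 1 := by field_simp
    rw [h5, one_div_div, div_mul_eq_mul_div, div_le_iff₀ (by linarith)]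
    nlinarith
  have h1 : ∑ t ∈ range n, a t ≤ ∑ t ∈ range (n * (k + 1)), a t :=
    sum_le_sum_of_subset_of_nonneg (range_mono (Nat.le_mul_of_pos_right n (by omega)))
      fun t _ _ => h.nonneg t
  calc ∑ t ∈ range n, a t ≤ ∑ t ∈ range (n * (k + 1)), a t := h1
    _ ≤ (∑ j ∈ range n, (Real.exp (-1)) ^ j) * (Real.exp 1 * ps0 u k) := hwin n
    _ ≤ 1 / (1 - Real.exp (-1)) * (Real.exp 1 * ps0 u k) :=
        mul_le_mul_of_nonneg_right (hgeo n) (mul_nonneg (Real.exp_pos _).le hU0)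
    _ = (1 / (1 - Real.exp (-1)) * Real.exp 1) * ps0 u k := by ring
    _ ≤ 5 * ps0 u k := mul_le_mul_of_nonneg_right hconst hU0

/-! ### first passage -/

/-- weight of first passage over `s` at height `T` -/
noncomputable def fpf (s : ℕ) (a i : ℕ → ℝ) (T : ℕ) : ℝ := ∑ j ∈ range s, a j * i (T - j)

lemma Ren.first (h : Ren a i) {s : ℕ} (hs : 1 ≤ s) : ∀ T, s ≤ T →
    a T = ∑ T' ∈ Icc s T, fpf s a i T' * a (T - T') := by
  intro T
  induction T using Nat.strong_induction_on with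
  | _ T ih =>
    intro hT
    obtain ⟨n, rfl⟩ : ∃ n, T = n + 1 := ⟨T - 1, by omega⟩
    have h1 : a (n + 1) = fpf s a i (n + 1) + ∑ j ∈ Ico s (n + 1), a j * i (n + 1 - j) := by
      rw [h.recu' n, fpf, ← sum_range_add_sum_Ico _ (by omega : s ≤ n + 1)]
    have h2 : ∑ j ∈ Ico s (n + 1), a j * i (n + 1 - j) =
        ∑ j ∈ Ico s (n + 1), ∑ T' ∈ Icc s j, fpf s a i T' * a (j - T') * i (n + 1 - j) := by
      apply sum_congr rfl
      intro j hj
      rw [mem_Ico] at hj
      rw [ih j (by omega) hj.1, sum_mul]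
    have h3 : ∑ j ∈ Ico s (n + 1), ∑ T' ∈ Icc s j, fpf s a i T' * a (j - T') * i (n + 1 - j) =
        ∑ T' ∈ Ico s (n + 1), ∑ j ∈ Ico T' (n + 1), fpf s a i T' * a (j - T') * i (n + 1 - j) := by
      apply sum_comm'
      intro j T'
      simp only [mem_Ico, mem_Icc]
      omega
    have h4 : ∀ T' ∈ Ico s (n + 1),
        ∑ j ∈ Ico T' (n + 1), fpf s a i T' * a (j - T') * i (n + 1 - j) =
          fpf s a i T' * a (n + 1 - T') := by
      intro T' hT'
      rw [mem_Ico] at hT'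
      rw [show n + 1 - T' = (n - T') + 1 by omega, h.recu' (n - T'), mul_sum,
        sum_Ico_eq_sum_range, show n + 1 - T' = n - T' + 1 by omega]
      apply sum_congr rfl
      intro j _
      rw [show T' + j - T' = j by omega, show n + 1 - (T' + j) = n - T' + 1 - j by omega]
      ring
    rw [h1, h2, h3, sum_congr rfl h4]
    rw [show Icc s (n + 1) = insert (n + 1) (Ico s (n + 1)) by
      ext x; simp only [mem_Icc, mem_insert, mem_Ico]; omega]
    rw [sum_insert (by simp), Nat.sub_self, h.a0, mul_one]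

lemma Ren.fpf_nonneg (h : Ren a i) (s T : ℕ) : 0 ≤ fpf s a i T :=
  sum_nonneg fun j _ => mul_nonneg (h.nonneg j) (h.inn _)

/-- total first passage weight is at least the tail divided by the total mass -/
theorem Ren.first_total (h : Ren a i) {s : ℕ} (hs : 1 ≤ s) {D : ℝ} (hD : 0 < D)
    (hiD : ∀ n, ∑ t ∈ range n, i t ≤ 1 - D) (n : ℕ) :
    D * ∑ t ∈ Ico s n, a t ≤ ∑ t ∈ Ico s n, fpf s a i t := by
  have h1 : ∑ t ∈ Ico s n, a t ≤ (∑ t ∈ Ico s n, fpf s a i t) * (1 / D) := by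
    have h2 : ∑ t ∈ Ico s n, a t = ∑ t ∈ Ico s n, ∑ T' ∈ Icc s t, fpf s a i T' * a (t - T') := by
      apply sum_congr rfl
      intro t ht
      rw [mem_Ico] at ht
      exact h.first hs t ht.1
    have h3 : ∑ t ∈ Ico s n, ∑ T' ∈ Icc s t, fpf s a i T' * a (t - T') =
        ∑ T' ∈ Ico s n, ∑ t ∈ Ico T' n, fpf s a i T' * a (t - T') := by
      apply sum_comm'
      intro j T'
      simp only [mem_Ico, mem_Icc]
      omega
    rw [h2, h3, sum_mul]
    apply sum_le_sum
    intro T' _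
    rw [← mul_sum, sum_Ico_eq_sum_range]
    apply mul_le_mul_of_nonneg_left _ (h.fpf_nonneg s T')
    have h4 : ∑ k ∈ range (n - T'), a (T' + k - T') = ∑ k ∈ range (n - T'), a k := by
      apply sum_congr rfl
      intro k _
      rw [Nat.add_sub_cancel_left]
    rw [h4]
    exact h.total hD hiD _
  calc D * ∑ t ∈ Ico s n, a t ≤ D * ((∑ t ∈ Ico s n, fpf s a i t) * (1 / D)) :=
        mul_le_mul_of_nonneg_left h1 hD.le
    _ = ∑ t ∈ Ico s n, fpf s a i t := by field_simp

end SAWF
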